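import Pool.Agent.X24.HB.Step

set_option autoImplicit false

/-! # covers of `r`-graphs all of whose bricks are in the class `KN` -/

namespace Pool.Agent.X24.HB

open Finset H76FC H76TX H76TY Pool.Agent.W315.LB

theorem cover_good {V : Type} [Fintype V] [DecidableEq V] {r : ℕ} {p : V → V → ℕ}
    (hp : RGraph r p) (hg : Good KN (gr p)) : Cover 1 r p := by
  refine main Pool.Agent.W209.LB.conn3 Pool.Agent.W427.LB.bicrit transport H76TW.bip H76TW.span
    tight2 connSide KN (fun V _ _ r p hc hp => eight' V r p (by omega) hp) ?_ _ V rfl r p hp hg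
  intro V _ _ r p hr hp hnt _ hk
  rcases hk with (hk | hk) | (hk | hk) | ⟨h1, h2, h3⟩
  · exact Or.inl (cover_known hp hk)
  · exact Or.inr (TH583.HB.step hr hp hnt hk)
  · exact Or.inl (TH100.LV.cover_of hp (Or.inl hk))
  · exact Or.inl (TH100.LV.cover_of hp (Or.inr (Or.inl hk)))
  · exact step_new hr hp hnt h1 h2 h3

end Pool.Agent.X24.HB
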