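import Pool.Agent.X24.HB.Three
import Pool.Agent.TH849.LB.Crit

/-!
# Averaging with bound four, for `r`-graphs whose `3`-graphs are settled
-/

set_option autoImplicit false
set_option linter.unusedSectionVars false

namespace Pool.Agent.X24.HB

open Finset H76FC H76TX H76TY Pool.Agent.W315.LB

open Classical in
/-- the averaging condition, with bound four -/
def Few4 (W : Type) [Fintype W] (H : SimpleGraph W) : Prop :=
  ∃ (k : Finset W → ℕ) (y : Finset W → ℝ), (∀ S, 0 ≤ y S) ∧
    (∀ M, TH583.HB.PM H M → ∀ S, TH583.HB.Heavy H S → TH583.HB.cross M S ≤ 2 * k S + 3) ∧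
    (∀ M, TH583.HB.PM H M → ∀ S T, TH583.HB.Heavy H S → TH583.HB.Heavy H T → Disjoint S T →
      5 ≤ TH583.HB.cross M S → 5 ≤ TH583.HB.cross M T → 1 ≤ y S + y T) ∧
    ∑ S : Finset W, (if TH583.HB.Heavy H S then y S * ((k S : ℝ) / (k S + 1)) else 0) < 4

/-- at most eight heavy sets -/
def Eight (W : Type) [Fintype W] (H : SimpleGraph W) : Prop :=
  {S : Finset W | TH583.HB.Heavy H S}.ncard ≤ 8

/-- some vertex lies outside of at most four heavy sets -/
def FourAvoid (W : Type) [Fintype W] (H : SimpleGraph W) : Prop :=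
  ∃ v : W, {S : Finset W | TH583.HB.Heavy H S ∧ v ∉ S}.ncard ≤ 4

theorem frac_lt (n : ℕ) : (n : ℝ) / (n + 1) < 1 := by
  rw [div_lt_one (by positivity)]
  linarith

theorem few4_of_eight (W : Type) [Fintype W] (H : SimpleGraph W) (h : Eight W H) : Few4 W H := by
  classical
  refine ⟨fun S => S.card, fun _ => 1 / 2, fun _ => by norm_num, ?_, ?_, ?_⟩
  · intro M _ S _
    have : TH583.HB.cross M S ≤ S.card := card_filter_le _ _
    show TH583.HB.cross M S ≤ 2 * S.card + 3
    omega
  · intro M _ S T _ _ _ _ _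
    norm_num
  · rw [← sum_filter]
    have hc : (univ.filter fun S : Finset W => TH583.HB.Heavy H S).card ≤ 8 := by
      refine le_trans (le_of_eq ?_) h
      rw [← Set.ncard_coe_finset]
      congr 1
      ext S
      simp
    rcases (univ.filter fun S : Finset W => TH583.HB.Heavy H S).eq_empty_or_nonempty with h0 | h0
    · rw [h0, sum_empty]; norm_num
    · calc ∑ S ∈ univ.filter fun S : Finset W => TH583.HB.Heavy H S,
            (1 / 2 : ℝ) * ((S.card : ℝ) / (S.card + 1))
          < ∑ S ∈ univ.filter fun S : Finset W => TH583.HB.Heavy H S, (1 / 2 : ℝ) := by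
            refine sum_lt_sum_of_nonempty h0 fun S _ => ?_
            have := frac_lt S.card
            linarith
        _ = (univ.filter fun S : Finset W => TH583.HB.Heavy H S).card * (1 / 2 : ℝ) := by
            rw [sum_const, nsmul_eq_mul]
        _ ≤ 4 := by
            have : ((univ.filter fun S : Finset W => TH583.HB.Heavy H S).card : ℝ) ≤ 8 := by
              exact_mod_cast hc
            linarith

theorem few4_of_avoid (W : Type) [Fintype W] (H : SimpleGraph W) (h : FourAvoid W H) :
    Few4 W H := by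
  classical
  obtain ⟨v, h⟩ := h
  refine ⟨fun S => S.card, fun S => if v ∈ S then 0 else 1, fun S => ?_, ?_, ?_, ?_⟩
  · show (0 : ℝ) ≤ if v ∈ S then 0 else 1
    split_ifs <;> norm_num
  · intro M _ S _
    have : TH583.HB.cross M S ≤ S.card := card_filter_le _ _
    show TH583.HB.cross M S ≤ 2 * S.card + 3
    omega
  · intro M _ S T _ _ hST _ _
    show (1 : ℝ) ≤ (if v ∈ S then 0 else 1) + (if v ∈ T then 0 else 1)
    by_cases h1 : v ∈ S
    · rw [if_pos h1, if_neg (disjoint_left.1 hST h1)]
      norm_num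
    · rw [if_neg h1]
      split_ifs <;> norm_num
  · have e : ∀ S : Finset W, (if TH583.HB.Heavy H S then
        (if v ∈ S then (0 : ℝ) else 1) * ((S.card : ℝ) / (S.card + 1)) else 0) =
        if TH583.HB.Heavy H S ∧ v ∉ S then (S.card : ℝ) / (S.card + 1) else 0 := by
      intro S
      by_cases h1 : TH583.HB.Heavy H S <;> by_cases h2 : v ∈ S <;> simp [h1, h2]
    rw [sum_congr rfl fun S _ => e S, ← sum_filter]
    have hc : (univ.filter fun S : Finset W => TH583.HB.Heavy H S ∧ v ∉ S).card ≤ 4 := by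
      refine le_trans (le_of_eq ?_) h
      rw [← Set.ncard_coe_finset]
      congr 1
      ext S
      simp
    rcases (univ.filter fun S : Finset W => TH583.HB.Heavy H S ∧ v ∉ S).eq_empty_or_nonempty
      with h0 | h0
    · rw [h0, sum_empty]; norm_num
    · calc ∑ S ∈ univ.filter fun S : Finset W => TH583.HB.Heavy H S ∧ v ∉ S,
            ((S.card : ℝ) / (S.card + 1))
          < ∑ S ∈ univ.filter fun S : Finset W => TH583.HB.Heavy H S ∧ v ∉ S, (1 : ℝ) :=
            sum_lt_sum_of_nonempty h0 fun S _ => frac_lt S.card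
        _ = (univ.filter fun S : Finset W => TH583.HB.Heavy H S ∧ v ∉ S).card := by
            rw [sum_const, nsmul_eq_mul, mul_one]
        _ ≤ 4 := by exact_mod_cast hc

variable {V : Type} [Fintype V] [DecidableEq V]

/-- `r ≤ 2` -/
theorem remove_small {r : ℕ} {p : V → V → ℕ} (hr : 1 ≤ r) (hr3 : r < 3) (hR : RGraph r p) :
    ∃ M, PMof p M ∧ RGraph (r - 1) (minus p M) := by
  obtain ⟨M, hM, _⟩ := TH583.HB.exists_avg hR hr ∅ (fun _ => 0) (by simp)
  refine ⟨M, hM, ?_⟩
  rcases TH583.HB.remove_or hr hR hM with h | ⟨S, T, _, hS, _⟩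
  · exact h
  · exfalso
    have h1 := TH583.HB.cut_add hM S
    have h2 := hS.lt
    obtain ⟨a, ha⟩ := TH583.HB.cut_parity hR hS.odd
    obtain ⟨b, hb⟩ := TH583.HB.out_parity hM.1 S
    obtain ⟨c, hc⟩ := hS.odd
    have h0 : H76FC.cut (minus p M) S = 0 := by omega
    rw [h0] at h1
    omega

/-- `r ≥ 4` -/
theorem remove_four {r : ℕ} {p : V → V → ℕ} (hr : 4 ≤ r) (hR : RGraph r p) (hN : NoTight r p)
    (hF : Few4 V (gr p)) : ∃ M, PMof p M ∧ RGraph (r - 1) (minus p M) := by
  classical
  by_contra hcon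
  push Not at hcon
  obtain ⟨k, y, hy0, hk, hy, hsum⟩ := hF
  have hPM : ∀ M, PMof p M → TH583.HB.PM (gr p) M := by
    intro M hM
    refine ⟨hM.1.1, fun v => Y13.adj_gr p v (M v) (fun h => hM.1.2 v h.symm) (hM.2 v)⟩
  have hbl : ∀ M, PMof p M → ∃ S T : Finset V, Disjoint S T ∧ TH849.LB.Blocks r p M S ∧
      TH849.LB.Blocks r p M T := by
    intro M hM
    rcases TH849.LB.blocked_of (by omega) hR hN hM with h | h
    · exact absurd h (hcon M hM)
    · exact h
  have hw := TH849.LB.weights_of (by omega) hR hbl y hy0 (by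
    intro M S T hM hS hT hd
    refine hy M (hPM M hM) S T hS.1 hT.1 hd ?_ ?_
    · rw [TH583.HB.cross_out]; exact hS.2.1
    · rw [TH583.HB.cross_out]; exact hT.2.1)
  have h4 : (4 : ℝ) ≤ r := by exact_mod_cast hr
  have hle : ∑ S ∈ univ.filter (TH849.LB.Blocking r p),
      y S * (((cut p S : ℝ) - r) / ((cut p S : ℝ) - r + 2)) ≤
      ∑ S : Finset V, (if TH583.HB.Heavy (gr p) S then y S * ((k S : ℝ) / (k S + 1)) else 0) := by
    rw [← sum_filter]
    have hsub : univ.filter (TH849.LB.Blocking r p) ⊆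
        univ.filter fun S : Finset V => TH583.HB.Heavy (gr p) S := by
      intro S hS
      rw [mem_filter] at hS ⊢
      obtain ⟨_, M, _, hM⟩ := hS
      exact ⟨mem_univ _, hM.1⟩
    refine le_trans (sum_le_sum fun S hS => ?_)
      (sum_le_sum_of_subset_of_nonneg hsub fun S _ _ => ?_)
    · obtain ⟨_, M, hM, hMS⟩ := mem_filter.1 hS
      refine mul_le_mul_of_nonneg_left ?_ (hy0 S)
      have h1 : cut p S + 3 ≤ r + (S.filter fun v => M v ∉ S).card := hMS.2.2
      have h2 := hk M (hPM M hM) S hMS.1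
      rw [TH583.HB.cross_out] at h2
      have h2' : (S.filter fun v => M v ∉ S).card ≤ 2 * k S + 3 := h2
      have h3 : cut p S ≤ r + 2 * k S := by omega
      have h5 : r ≤ cut p S := hR.odd S hMS.1.odd
      have h3' : (cut p S : ℝ) ≤ r + 2 * k S := by exact_mod_cast h3
      have h5' : (r : ℝ) ≤ cut p S := by exact_mod_cast h5
      rw [div_le_div_iff₀ (by linarith) (by positivity)]
      nlinarith
    · exact mul_nonneg (hy0 S) (div_nonneg (Nat.cast_nonneg _) (by positivity))
  linarith

/-- the step for the new class -/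
theorem step_new {r : ℕ} {p : V → V → ℕ} (hr : 1 ≤ r) (hR : RGraph r p) (hN : NoTight r p)
    (hS : Slim V (gr p)) (hP : ¬ PetMinor (gr p)) (hF : Few4 V (gr p)) :
    Cover 1 r p ∨ ∃ M, PMof p M ∧ RGraph (r - 1) (minus p M) := by
  rcases Nat.lt_or_ge r 3 with h | h
  · exact Or.inr (remove_small hr h hR)
  rcases Nat.eq_or_lt_of_le h with h | h
  · subst h
    exact Or.inl (cover3 hR hS hP)
  · exact Or.inr (remove_four h hR hN hF)

/-- the classes of bricks -/
def KN (W : Type) [Fintype W] (H : SimpleGraph W) : Prop :=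
  TH583.HB.KF W H ∨ (TH100.LV.EvenPerms H.Adj ∨ TH100.LV.TwoColour H) ∨
    (Slim W H ∧ ¬ PetMinor H ∧ Few4 W H)

theorem decomp_bricks (V E : Type) [Fintype V] [Fintype E] [DecidableEq E] (ends : E → Sym2 V)
    (hG : ∀ (W : Type) [Fintype W] (H : SimpleGraph W), Brick H →
      OddMinor H (SimpleGraph.fromEdgeSet (Set.range ends)) → KN W H) : Decomp ends := by
  refine decomp_of (fun V G => Good KN G) ?_ ?_ V E ends hG
  · intro V G H h hG
    exact good_sub id Function.injective_id h hG
  · intro V _ _ r p hp hg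
    refine main Pool.Agent.W209.LB.conn3 Pool.Agent.W427.LB.bicrit transport H76TW.bip H76TW.span
      tight2 connSide KN (fun V _ _ r p hc hp => eight' V r p (by omega) hp) ?_ _ V rfl r p hp hg
    intro V _ _ r p hr hp hnt _ hk
    rcases hk with (hk | hk) | (hk | hk) | ⟨h1, h2, h3⟩
    · exact Or.inl (cover_known hp hk)
    · exact Or.inr (TH583.HB.step hr hp hnt hk)
    · exact Or.inl (TH100.LV.cover_of hp (Or.inl hk))
    · exact Or.inl (TH100.LV.cover_of hp (Or.inr (Or.inl hk)))
    · exact step_new hr hp hnt h1 h2 h3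

/-- the next counterexample -/
theorem critical_slim {r : ℕ} {p : V → V → ℕ} (h : TH849.LB.Critical r p) (hS : Slim V (gr p)) :
    4 ≤ r ∧ ¬ Few4 V (gr p) := by
  have h4 : 4 ≤ r := by
    by_contra h4
    have h3 : r = 3 := by have := h.three; omega
    subst h3
    exact TH849.LB.not_critical_of_cover (fun hR hP => cover3 hR hS hP) h
  refine ⟨h4, fun hF => ?_⟩
  have hst := h.stuck
  obtain ⟨M, hM, hR⟩ := remove_four h4 h.rgraph hst.notight hF
  exact hst.stuck M hM hR

end Pool.Agent.X24.HB
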