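import Pool.Agent.TH395.P5.Blk5
import Pool.Agent.Y642.RN.A
import Pool.Agent.H76R2.TY.Y13

/-!
# `3`-graphs and flows with values in `Z_2 x Z_2`
-/

set_option autoImplicit false
set_option linter.unusedSectionVars false

namespace Pool.Agent.X24.HB

open Finset H76FC H76TY Pool.Agent.TH499.TF

variable {V : Type} [Fintype V] [DecidableEq V]

/-- the edges of the multigraph `p`, with multiplicities at most three; `φ` orders the vertices -/
abbrev Ed (p : V → V → ℕ) (φ : V → ℕ) : Type :=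
  {t : V × V × Fin 3 // φ t.1 < φ t.2.1 ∧ (t.2.2 : ℕ) < p t.1 t.2.1}

variable {p : V → V → ℕ} {φ : V → ℕ}

/-- first end -/
def sr (e : Ed p φ) : V := e.1.1

/-- second end -/
def ds (e : Ed p φ) : V := e.1.2.1

theorem sr_ne (e : Ed p φ) : sr e ≠ ds e := by
  intro h
  have := e.2.1
  unfold sr ds at h
  rw [h] at this
  exact lt_irrefl _ this

theorem le_three (hp : RGraph 3 p) (u v : V) : p u v ≤ 3 := by
  rw [← hp.reg u]
  exact single_le_sum (f := fun w => p u w) (fun _ _ => Nat.zero_le _) (mem_univ v)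

/-- `e` joins `u` and `v` -/
abbrev Jo (e : Ed p φ) (u v : V) : Prop := (sr e = u ∧ ds e = v) ∨ (sr e = v ∧ ds e = u)

theorem cnt_lt (hp : RGraph 3 p) {u v : V} (huv : φ u < φ v) :
    (univ.filter fun e : Ed p φ => Jo e u v).card = p u v := by
  have h3 := le_three hp u v
  conv_rhs => rw [← Fintype.card_fin (p u v), ← card_univ]
  symm
  refine card_bij (fun i _ => (⟨(u, v, ⟨i.1, lt_of_lt_of_le i.2 h3⟩), huv, i.2⟩ : Ed p φ))
    ?_ ?_ ?_
  · intro i _
    exact mem_filter.2 ⟨mem_univ _, Or.inl ⟨rfl, rfl⟩⟩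
  · intro i _ j _ hij
    have h1 := congrArg (fun e : Ed p φ => e.1.2.2.1) hij
    exact Fin.ext h1
  · rintro ⟨⟨a, b, i⟩, h1, h2⟩ he
    have h4 := (mem_filter.1 he).2
    rcases h4 with ⟨h5, h6⟩ | ⟨h5, h6⟩
    · change a = u at h5
      change b = v at h6
      subst h5 h6
      exact ⟨⟨i.1, h2⟩, mem_univ _, rfl⟩
    · change a = v at h5
      change b = u at h6
      subst h5 h6
      exact absurd (lt_trans huv h1) (lt_irrefl _)

theorem cnt (hp : RGraph 3 p) (hφ : Function.Injective φ) {u v : V} (huv : u ≠ v) :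
    (univ.filter fun e : Ed p φ => Jo e u v).card = p u v := by
  rcases lt_or_gt_of_ne (fun h => huv (hφ h)) with h | h
  · exact cnt_lt hp h
  · rw [hp.symm u v, ← cnt_lt hp h]
    congr 1
    ext e
    simp only [mem_filter, mem_univ, true_and]
    exact Or.comm

theorem dlt_card (hp : RGraph 3 p) (hφ : Function.Injective φ) (Y : Finset V) :
    (dlt (E := Ed p φ) sr ds Y).card = cut p Y := by
  unfold cut
  have hmaps : ∀ e ∈ dlt (E := Ed p φ) sr ds Y,
      (if sr e ∈ Y then (sr e, ds e) else (ds e, sr e)) ∈ Y ×ˢ Yᶜ := by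
    intro e he
    rw [mem_dlt] at he
    rw [mem_product]
    by_cases h : sr e ∈ Y
    · rw [if_pos h]
      exact ⟨h, mem_compl.2 fun h2 => he ⟨fun _ => h2, fun _ => h⟩⟩
    · rw [if_neg h]
      refine ⟨?_, mem_compl.2 h⟩
      by_contra h2
      exact he ⟨fun h3 => absurd h3 h, fun h3 => absurd h3 h2⟩
  rw [card_eq_sum_card_fiberwise hmaps, sum_product]
  refine sum_congr rfl fun u hu => sum_congr rfl fun v hv => ?_
  have hv' := mem_compl.1 hv
  have huv : u ≠ v := fun h => hv' (h ▸ hu)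
  rw [← cnt (φ := φ) hp hφ huv]
  congr 1
  ext e
  simp only [mem_filter, mem_univ, true_and, mem_dlt]
  constructor
  · rintro ⟨-, h⟩
    by_cases h2 : sr e ∈ Y
    · rw [if_pos h2] at h
      exact Or.inl ⟨congrArg Prod.fst h, congrArg Prod.snd h⟩
    · rw [if_neg h2] at h
      exact Or.inr ⟨congrArg Prod.snd h, congrArg Prod.fst h⟩
  · rintro (⟨h1, h2⟩ | ⟨h1, h2⟩)
    · refine ⟨?_, ?_⟩
      · rw [h1, h2]
        exact fun h => hv' (h.1 hu)
      · rw [if_pos (by rw [h1]; exact hu), h1, h2]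
    · refine ⟨?_, ?_⟩
      · rw [h1, h2]
        exact fun h => hv' (h.2 hu)
      · rw [if_neg (by rw [h1]; exact hv'), h1, h2]

theorem cut_single (hp : RGraph 3 p) (v : V) : cut p {v} = 3 := by
  unfold cut
  rw [sum_singleton]
  have h2 := sum_add_sum_compl {v} (fun w => p v w)
  rw [hp.reg, sum_singleton, hp.loopless, zero_add] at h2
  exact h2

/-- no isthmus -/
theorem br (hp : RGraph 3 p) (hφ : Function.Injective φ) (Y : Finset V) :
    (dlt (E := Ed p φ) sr ds Y).card ≠ 1 := by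
  intro h
  have h1 := dlt_card hp hφ Y
  rw [h] at h1
  rcases Nat.even_or_odd Y.card with he | ho
  · -- parity
    have h2 : ∑ v ∈ Y, (dlt (E := Ed p φ) sr ds {v}).card =
        3 * Y.card := by
      rw [sum_congr rfl fun v _ => (dlt_card hp hφ {v}).trans (cut_single hp v), sum_const,
        smul_eq_mul, mul_comm]
    have h3 : ∀ e : Ed p φ, ((if e ∈ dlt (E := Ed p φ) sr ds Y then 1 else 0 : ℕ) : ZMod 2) =
        ∑ v ∈ Y, ((if e ∈ dlt (E := Ed p φ) sr ds {v} then 1 else 0 : ℕ) : ZMod 2) := by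
      intro e
      have hne := sr_ne e
      have h4 : ∀ v, ((if e ∈ dlt (E := Ed p φ) sr ds {v} then 1 else 0 : ℕ) : ZMod 2) =
          (if sr e = v then 1 else 0) + (if ds e = v then 1 else 0) := by
        intro v
        simp only [mem_dlt, mem_singleton]
        by_cases h5 : sr e = v
        · have h6 : ds e ≠ v := fun h => hne (h5.trans h.symm)
          simp [h5, h6]
        · by_cases h6 : ds e = v <;> simp [h5, h6]
      rw [sum_congr rfl fun v _ => h4 v, sum_add_distrib, sum_ite_eq, sum_ite_eq]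
      simp only [mem_dlt]
      have two : (1 : ZMod 2) + 1 = 0 := by decide
      by_cases h5 : sr e ∈ Y <;> by_cases h6 : ds e ∈ Y <;> simp [h5, h6, two]
    have h5 : (((dlt (E := Ed p φ) sr ds Y).card : ℕ) : ZMod 2) =
        ((∑ v ∈ Y, (dlt (E := Ed p φ) sr ds {v}).card : ℕ) : ZMod 2) := by
      have e1 : ∀ Z : Finset V, (((dlt (E := Ed p φ) sr ds Z).card : ℕ) : ZMod 2) =
          ∑ e : Ed p φ, ((if e ∈ dlt (E := Ed p φ) sr ds Z then 1 else 0 : ℕ) : ZMod 2) := by
        intro Z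
        rw [← Nat.cast_sum, sum_boole]
        congr 1
        simp
      rw [e1, Nat.cast_sum, sum_congr rfl fun v _ => e1 {v}, sum_comm]
      exact sum_congr rfl fun e _ => h3 e
    rw [h, h2] at h5
    obtain ⟨a, ha⟩ := he
    rw [ha] at h5
    have h6 : ((3 * (a + a) : ℕ) : ZMod 2) = 0 := by
      rw [ZMod.natCast_eq_zero_iff_even]
      exact ⟨3 * a, by ring⟩
    rw [h6] at h5
    exact absurd h5 (by decide)
  · have := hp.odd Y ho
    omega

/-- the three colours -/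
def col : Fin 3 → K := ![(1, 0), (0, 1), (1, 1)]

theorem col_ne : ∀ c, col c ≠ 0 := by decide
theorem col_inj : Function.Injective col := by decide
theorem col_surj : ∀ x : K, x ≠ 0 → ∃ c, col c = x := by decide

theorem three0 : ∀ x y c : K, x ≠ 0 → y ≠ 0 → x + y ≠ 0 → c ≠ 0 →
    x = c ∨ y = c ∨ x + y = c := by
  decide

theorem three1 (x y : K) (hx : x ≠ 0) (hy : y ≠ 0) (hxy : x + y ≠ 0) (c : K) (hc : c ≠ 0) :
    (x = c ∧ y ≠ c ∧ x + y ≠ c) ∨ (x ≠ c ∧ y = c ∧ x + y ≠ c) ∨ (x ≠ c ∧ y ≠ c ∧ x + y = c) := by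
  rcases three0 x y c hx hy hxy hc with h | h | h
  · subst h
    refine Or.inl ⟨rfl, fun h => hxy (by rw [h]; exact K_add_self _), fun h => hy ?_⟩
    exact left_eq_add.1 h.symm
  · subst h
    refine Or.inr (Or.inl ⟨fun h => hxy (by rw [h]; exact K_add_self _), rfl, fun h => hx ?_⟩)
    exact right_eq_add.1 h.symm
  · subst h
    exact Or.inr (Or.inr ⟨fun h => hy (left_eq_add.1 h), fun h => hx (right_eq_add.1 h), rfl⟩)

theorem three (x y z : K) (hx : x ≠ 0) (hy : y ≠ 0) (hz : z ≠ 0) (h : x + y + z = 0) (c : K)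
    (hc : c ≠ 0) : (x = c ∧ y ≠ c ∧ z ≠ c) ∨ (x ≠ c ∧ y = c ∧ z ≠ c) ∨ (x ≠ c ∧ y ≠ c ∧ z = c) := by
  have h1 := K_eq_of_add h
  subst h1
  exact three1 x y hx hy hz c hc

/-- the other end -/
def oth (e : Ed p φ) (v : V) : V := if sr e = v then ds e else sr e

theorem mem_star (e : Ed p φ) (v : V) :
    e ∈ dlt (E := Ed p φ) sr ds {v} ↔ sr e = v ∨ ds e = v := by
  have hne := sr_ne e
  rw [mem_dlt, mem_singleton, mem_singleton]
  by_cases h5 : sr e = v
  · have h6 : ds e ≠ v := fun h => hne (h5.trans h.symm)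
    simp [h5, h6]
  · by_cases h6 : ds e = v <;> simp [h5, h6]

theorem oth_ne {e : Ed p φ} {v : V} (h : sr e = v ∨ ds e = v) : oth e v ≠ v := by
  have hne := sr_ne e
  unfold oth
  split_ifs with h1
  · exact fun h2 => hne (h1.trans h2.symm)
  · exact h1

theorem oth_mem {e : Ed p φ} {v : V} (h : sr e = v ∨ ds e = v) :
    sr e = oth e v ∨ ds e = oth e v := by
  unfold oth
  split_ifs with h1
  · exact Or.inr rfl
  · exact Or.inl rfl

theorem oth_oth {e : Ed p φ} {v : V} (h : sr e = v ∨ ds e = v) : oth e (oth e v) = v := by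
  have hne := sr_ne e
  unfold oth
  by_cases h1 : sr e = v
  · rw [if_pos h1, if_neg hne, h1]
  · rw [if_neg h1, if_pos rfl]
    exact h.resolve_left h1

theorem jo_iff {e : Ed p φ} {u v : V} (huv : u ≠ v) :
    Jo e u v ↔ (sr e = u ∨ ds e = u) ∧ oth e u = v := by
  have hne := sr_ne e
  unfold oth
  constructor
  · rintro (⟨h1, h2⟩ | ⟨h1, h2⟩)
    · exact ⟨Or.inl h1, by rw [if_pos h1, h2]⟩
    · refine ⟨Or.inr h2, ?_⟩
      rw [if_neg (fun h => hne (h.trans h2.symm)), h1]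
  · rintro ⟨h1, h2⟩
    by_cases h3 : sr e = u
    · rw [if_pos h3] at h2
      exact Or.inl ⟨h3, h2⟩
    · rw [if_neg h3] at h2
      exact Or.inr ⟨h2, h1.resolve_left h3⟩

theorem cover_of_nz (hp : RGraph 3 p) (hφ : Function.Injective φ)
    (h : NZ (E := Ed p φ) sr ds) : Cover 1 3 p := by
  obtain ⟨f, hf, hd⟩ := h
  have hex : ∀ (c : Fin 3) (v : V), ∃ e : Ed p φ, (sr e = v ∨ ds e = v) ∧ f e = col c ∧
      ∀ e' : Ed p φ, (sr e' = v ∨ ds e' = v) → f e' = col c → e' = e := by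
    intro c v
    have h1 : (dlt (E := Ed p φ) sr ds {v}).card = 3 := (dlt_card hp hφ {v}).trans (cut_single hp v)
    have h2 : ∑ e ∈ dlt (E := Ed p φ) sr ds {v}, f e = 0 := by
      rw [← sum_dv, sum_singleton]
      exact hd v
    obtain ⟨a, b, d, hab, had, hbd, hs⟩ := card_eq_three.1 h1
    rw [hs, sum_insert (by simp [hab, had]), sum_pair hbd, ← add_assoc] at h2
    have hm : ∀ e : Ed p φ, (sr e = v ∨ ds e = v) ↔ e = a ∨ e = b ∨ e = d := by
      intro e
      rw [← mem_star, hs]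
      simp
    rcases three _ _ _ (hf a) (hf b) (hf d) h2 (col c) (col_ne c) with
      ⟨h3, h4, h5⟩ | ⟨h3, h4, h5⟩ | ⟨h3, h4, h5⟩
    · refine ⟨a, (hm a).2 (Or.inl rfl), h3, fun e' he' hc => ?_⟩
      rcases (hm e').1 he' with rfl | rfl | rfl
      · rfl
      · exact absurd hc h4
      · exact absurd hc h5
    · refine ⟨b, (hm b).2 (Or.inr (Or.inl rfl)), h4, fun e' he' hc => ?_⟩
      rcases (hm e').1 he' with rfl | rfl | rfl
      · exact absurd hc h3
      · rfl
      · exact absurd hc h5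
    · refine ⟨d, (hm d).2 (Or.inr (Or.inr rfl)), h5, fun e' he' hc => ?_⟩
      rcases (hm e').1 he' with rfl | rfl | rfl
      · exact absurd hc h3
      · exact absurd hc h4
      · rfl
  choose g g1 g2 g3 using hex
  have hgg : ∀ c v, g c (oth (g c v) v) = g c v := by
    intro c v
    exact (g3 c _ (g c v) (oth_mem (g1 c v)) (g2 c v)).symm
  refine ⟨fun c v => oth (g c v) v, fun c => ⟨fun v => ?_, fun v => oth_ne (g1 c v)⟩,
    fun u v => ?_⟩
  · show oth (g c (oth (g c v) v)) (oth (g c v) v) = v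
    rw [hgg]
    exact oth_oth (g1 c v)
  · change (univ.filter fun c : Fin 3 => oth (g c u) u = v).card = 1 * p u v
    rw [one_mul]
    by_cases huv : u = v
    · subst huv
      rw [hp.loopless, card_eq_zero, filter_eq_empty_iff]
      intro c _
      exact oth_ne (g1 c u)
    · rw [← cnt (φ := φ) hp hφ huv]
      refine card_bij (fun c _ => g c u) ?_ ?_ ?_
      · intro c hc
        exact mem_filter.2 ⟨mem_univ _, (jo_iff huv).2 ⟨g1 c u, (mem_filter.1 hc).2⟩⟩
      · intro c _ c' _ hcc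
        apply col_inj
        rw [← g2 c u, ← g2 c' u, hcc]
      · intro e he
        obtain ⟨h1, h2⟩ := (jo_iff huv).1 (mem_filter.1 he).2
        obtain ⟨c, hc⟩ := col_surj (f e) (hf e)
        have h3 : e = g c u := g3 c u e h1 hc.symm
        exact ⟨c, mem_filter.2 ⟨mem_univ _, by show oth (g c u) u = v; rw [← h3]; exact h2⟩, h3.symm⟩

theorem adj_of (e : Ed p φ) : (gr p).Adj (sr e) (ds e) :=
  Y13.adj_gr p _ _ (sr_ne e) (lt_of_le_of_lt (Nat.zero_le _) e.2.2)

theorem petMinor_of (h : PM (E := Ed p φ) sr ds) : PetMinor (gr p) := by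
  classical
  obtain ⟨S, h1, h2, h3⟩ := h
  have hex : ∀ i : Pr, ∃ j : Pr, Disjoint i.1 j.1 := by decide
  have hadj : ∀ (e : Ed p φ) (a b : V), Joins sr ds e a b → (gr p).Adj a b := by
    rintro e a b (⟨h4, h5⟩ | ⟨h4, h5⟩)
    · rw [← h4, ← h5]; exact adj_of e
    · rw [← h4, ← h5]; exact (adj_of e).symm
  have hne : ∀ i, ∃ x, x ∈ S i := by
    intro i
    obtain ⟨j, hj⟩ := hex i
    obtain ⟨e, x, y, hx, -, -⟩ := h3 i j hj
    exact ⟨x, hx⟩
  refine ⟨fun i => (S i : Set V), fun i j hij => disjoint_coe.2 (h2 i j hij), fun i => ?_,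
    fun i j hij => ?_⟩
  · by_contra hcon
    obtain ⟨x, hx⟩ := hne i
    haveI : Nonempty ((S i : Set V) : Type) := ⟨⟨x, hx⟩⟩
    obtain ⟨T, ⟨a, ha⟩, ⟨b, hb⟩, hT⟩ := Y13.split _ hcon
    obtain ⟨e, c, d, hc, hd, hcd, hj⟩ := h1 i
      ((S i).filter fun v => ∃ h : v ∈ (S i : Set V), T ⟨v, h⟩) (filter_subset _ _)
      ⟨a.1, mem_filter.2 ⟨a.2, a.2, ha⟩⟩ (by
        intro h
        have h4 : b.1 ∈ (S i).filter fun v => ∃ h : v ∈ (S i : Set V), T ⟨v, h⟩ := by
          rw [h]; exact b.2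
        obtain ⟨-, h5, h6⟩ := mem_filter.1 h4
        exact hb h6)
    obtain ⟨h5, h6, h7⟩ := mem_filter.1 hc
    apply hcd
    refine mem_filter.2 ⟨hd, hd, ?_⟩
    refine (hT ⟨c, h6⟩ ⟨d, hd⟩ ?_).1 h7
    exact hadj e c d hj
  · obtain ⟨e, x, y, hx, hy, hj⟩ := h3 i j hij
    exact ⟨x, hx, y, hy, hadj e x y hj⟩

/-- path decompositions of width at most five -/
def PW5 {W : Type} (H : SimpleGraph W) : Prop :=
  ∃ X : ℕ → Finset W, (∀ u v, H.Adj u v → ∃ i, u ∈ X i ∧ v ∈ X i) ∧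
    (∀ i j k, i ≤ j → j ≤ k → ∀ v, v ∈ X i → v ∈ X k → v ∈ X j) ∧ ∀ i, (X i).card ≤ 6

/-- tree decompositions of width at most four -/
def TW4 {W : Type} (H : SimpleGraph W) : Prop :=
  ∃ (ι : Type) (_ : Fintype ι) (T : SimpleGraph ι) (X : ι → Finset W), T.IsTree ∧
    (∀ u v, H.Adj u v → ∃ i, u ∈ X i ∧ v ∈ X i) ∧
    (∀ (i j : ι) (q : T.Walk i j), q.IsPath → ∀ k ∈ q.support, ∀ v, v ∈ X i → v ∈ X j → v ∈ X k) ∧
    ∀ i, (X i).card ≤ 5

/-- at most seventeen vertices, or pathwidth at most five, or treewidth at most four -/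
def Slim (W : Type) [Fintype W] (H : SimpleGraph W) : Prop :=
  Fintype.card W ≤ 17 ∨ PW5 H ∨ TW4 H

theorem even_card (hp : RGraph 3 p) : Even (Fintype.card V) := by
  by_contra hodd
  have := hp.odd univ (by simpa using hodd)
  simp [cut] at this

/-- a walk from `A` to the outside of `A` has a step which leaves `A` -/
theorem leave {W : Type} {R : W → W → Prop} {A : Set W} {x y : W}
    (h : Relation.ReflTransGen R x y) (hx : x ∈ A) (hy : y ∉ A) : ∃ a b, a ∈ A ∧ b ∉ A ∧ R a b := by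
  induction h with
  | refl => exact absurd hx hy
  | @tail b c _ h2 ih =>
    by_cases hb : b ∈ A
    · exact ⟨b, c, hb, hy, h2⟩
    · exact ih hb

theorem PM_of_contracts {E : Type} {src dst : E → V}
    (h : Pool.Agent.TH362.Multi.ContractsToPetersen src dst) : PM src dst := by
  classical
  obtain ⟨B, h1, h2, h3, -⟩ := h
  refine ⟨fun i => univ.filter (· ∈ B i), fun i A hA hne hA' => ?_, fun i j hij => ?_,
    fun i j hij => ?_⟩
  · obtain ⟨a, ha⟩ := hne
    obtain ⟨b, hb, hbA⟩ : ∃ b ∈ univ.filter (· ∈ B i), b ∉ A := by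
      by_contra hcon
      push Not at hcon
      exact hA' (Subset.antisymm hA hcon)
    obtain ⟨c, d, hc, hd, e, he, hj⟩ := leave (A := (A : Set V))
      ((h1 i).2 a (mem_filter.mp (hA ha)).2 b (mem_filter.mp hb).2) ha hbA
    have hdB : d ∈ B i := by
      rcases hj with ⟨h4, h5⟩ | ⟨h4, h5⟩
      · rw [← h5]; exact he.2
      · rw [← h4]; exact he.1
    exact ⟨e, c, d, hc, mem_filter.mpr ⟨mem_univ _, hdB⟩, hd, hj⟩
  · rw [Finset.disjoint_left]
    intro v hv hv'
    exact Set.disjoint_left.mp (h2 i j hij) (mem_filter.mp hv).2 (mem_filter.mp hv').2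
  · obtain ⟨e, he, -⟩ := h3 i j hij
    rcases he with ⟨h4, h5⟩ | ⟨h4, h5⟩
    · exact ⟨e, _, _, mem_filter.mpr ⟨mem_univ _, h4⟩, mem_filter.mpr ⟨mem_univ _, h5⟩,
        Or.inl ⟨rfl, rfl⟩⟩
    · exact ⟨e, _, _, mem_filter.mpr ⟨mem_univ _, h5⟩, mem_filter.mpr ⟨mem_univ _, h4⟩,
        Or.inr ⟨rfl, rfl⟩⟩

/-- `3`-graphs in the class are unions of three perfect matchings -/
theorem cover3 (hp : RGraph 3 p) (hS : Slim V (gr p)) (hP : ¬ PetMinor (gr p)) : Cover 1 3 p := by
  classical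
  let φ : V → ℕ := fun v => (Fintype.equivFin V v).val
  have hφ : Function.Injective φ := fun u v h => (Fintype.equivFin V).injective (Fin.ext h)
  have hPM : ¬ PM (E := Ed p φ) sr ds := fun h => hP (petMinor_of h)
  have hb := br hp hφ
  have hjoin : ∀ e : Ed p φ, (gr p).Adj (sr e) (ds e) := adj_of
  apply cover_of_nz hp hφ
  rcases hS with h | ⟨X, x1, x2, x3⟩ | ⟨ι, _, T, X, t1, t2, t3, t4⟩
  · obtain ⟨a, ha⟩ := even_card hp
    have hN1 := Y642.RN.n1_of hb
    have h16 : (TH362.TF.odd (sr (p := p) (φ := φ)) ds univ).card ≤ 16 := by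
      refine le_trans (card_le_univ _) ?_
      omega
    rcases TH362.TF.main16 sr ds univ hN1 h16 with h2 | h2
    · exact Y642.RN.nz_of h2
    · exact absurd (PM_of_contracts (TH362.TF.contracts sr ds hN1 h2)) hPM
  · refine TH395.P5.cls5 ⟨X, fun e => x1 _ _ (hjoin e), fun i j k hij hjk v hv => ?_, x3⟩ hPM hb
    rw [mem_inter] at hv
    exact x2 i j k hij hjk v hv.1 hv.2
  · have hTD : HasTD 5 (sr (p := p) (φ := φ)) ds :=
      HasTD.of_tree t1 t3 (fun e => t2 _ _ (hjoin e)) t4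
    exact cls_nz _ sr ds rfl ⟨hTD, hPM⟩ hb

end Pool.Agent.X24.HB
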